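import Pool.Agent.Helper88.TA.Win

/-! # TA: the two ranges of `lam` -/

set_option autoImplicit false

open Finset Filter Topology

open scoped Classical

namespace Pool.Agent.Helper88.TA

open Pool.Agent.Helper88.PP (pr Rg om Sf SS uu vv ee LA VV QQ cost dd)
open Pool.Agent.Helper88.GM (NI XI In Sr)
open Pool.Agent.Helper88.TU (Su size choose3)
open Pool.Agent.Helper88.AC (hlogN hllN hlllN)

theorem le_exp {D lam : ℝ} (hD : 3 ≤ D) (h : 1 ≤ lam) : lam ≤ Real.exp (D * lam) := by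
  have e2 := Real.add_one_le_exp (D * lam)
  nlinarith

/-- the number of points of a window against the density of the rough numbers -/
theorem few {CU C1 cK D lam E l ll lw H om' p lz : ℝ} (hCU : 0 < CU) (hC1 : 0 < C1)
    (hl : 0 < l) (hll : 0 < ll) (hE : 0 < E) (hlam : 0 < lam)
    (hD : 16 * CU * C1 ≤ cK * D)
    (h1 : p ≤ CU * (H / lw)) (h2 : H ≤ 2 * lam * l) (h3 : ll / 2 ≤ lw) (hH : 0 ≤ H)
    (h4 : om' ≤ C1 * (2 * ll / lz)) (h5 : l ≤ 2 * (E * lz)) (hlz : 0 < lz) (hp : 0 ≤ p)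
    (hom : 0 ≤ om') (hcK : 0 < cK) {lE : ℝ} (h6 : D * lam ≤ lE) :
    p * om' ≤ cK * (E * lE) := by
  have e1 : p ≤ 4 * CU * lam * l / ll := by
    refine h1.trans ?_
    have e2 : H / lw ≤ H / (ll / 2) := div_le_div_of_nonneg_left hH (by positivity) h3
    have e3 : H / (ll / 2) ≤ (2 * lam * l) / (ll / 2) :=
      div_le_div_of_nonneg_right h2 (by positivity)
    calc CU * (H / lw) ≤ CU * ((2 * lam * l) / (ll / 2)) :=
          mul_le_mul_of_nonneg_left (e2.trans e3) hCU.le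
      _ = 4 * CU * lam * l / ll := by
          field_simp
          ring
  have e4 : om' ≤ 4 * C1 * E * ll / l := by
    refine h4.trans ?_
    rw [le_div_iff₀ hl]
    calc C1 * (2 * ll / lz) * l ≤ C1 * (2 * ll / lz) * (2 * (E * lz)) :=
          mul_le_mul_of_nonneg_left h5 (by positivity)
      _ = 4 * C1 * E * ll := by
          field_simp
          ring
  calc p * om' ≤ (4 * CU * lam * l / ll) * (4 * C1 * E * ll / l) :=
        mul_le_mul e1 e4 hom (by positivity)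
    _ = (16 * CU * C1) * (E * lam) := by
        field_simp
        ring
    _ ≤ (cK * D) * (E * lam) := mul_le_mul_of_nonneg_right hD (by positivity)
    _ = cK * (E * (D * lam)) := by ring
    _ ≤ cK * (E * lE) := by gcongr

/-- the logarithm of `⌊log x / 20⌋` -/
theorem logw : ∀ᶠ l : ℝ in atTop, 2 ≤ ⌊l / 20⌋₊ ∧ Real.log l / 2 ≤ Real.log (⌊l / 20⌋₊ : ℕ) := by
  filter_upwards [eventually_ge_atTop (1600 : ℝ)] with l hl
  have h1 : l / 20 < (⌊l / 20⌋₊ : ℝ) + 1 := Nat.lt_floor_add_one _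
  have h2 : l / 40 ≤ (⌊l / 20⌋₊ : ℝ) := by linarith
  refine ⟨?_, ?_⟩
  · have : (2 : ℝ) ≤ (⌊l / 20⌋₊ : ℝ) := by linarith
    exact_mod_cast this
  · have h3 : l ≤ (l / 40) ^ 2 := by nlinarith
    have h4 : Real.log l ≤ Real.log ((l / 40) ^ 2) := Real.log_le_log (by linarith) h3
    rw [Real.log_pow] at h4
    have h5 : Real.log (l / 40) ≤ Real.log (⌊l / 20⌋₊ : ℝ) := Real.log_le_log (by linarith) h2
    push_cast at h4
    linarith

/-- sizes for the first range -/
theorem szA : ∀ᶠ ll : ℝ in atTop, 4 * Real.log ll * Real.exp (4 * Real.exp (Real.log ll / 2)) ≤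
    Real.exp ll := by
  filter_upwards [eventually_ge_atTop (64 : ℝ)] with ll hll
  obtain ⟨v, hv⟩ : ∃ v : ℝ, v = √ll := ⟨_, rfl⟩
  have hv8 : 8 ≤ v := by
    rw [hv]
    apply Real.le_sqrt_of_sq_le
    norm_num
    exact hll
  have hvs : v ^ 2 = ll := by
    rw [hv]
    exact Real.sq_sqrt (by linarith)
  have h1 : Real.exp (Real.log ll / 2) = v := by
    rw [hv, Real.sqrt_eq_rpow, Real.rpow_def_of_pos (by linarith)]
    ring_nf
  have h2 : Real.log ll ≤ 2 * v := by
    rw [← hvs, Real.log_pow]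
    have := Real.log_le_sub_one_of_pos (show 0 < v by linarith)
    push_cast
    linarith
  rw [h1]
  have h3 : 4 * Real.log ll ≤ Real.exp (4 * v) := by
    have h4 : 4 * v + 1 ≤ Real.exp (4 * v) := Real.add_one_le_exp _
    have h5 : 2 * v + 1 ≤ Real.exp (2 * v) := Real.add_one_le_exp _
    have h6 : Real.exp (4 * v) = Real.exp (2 * v) * Real.exp (2 * v) := by
      rw [← Real.exp_add]
      ring_nf
    rw [h6]
    nlinarith
  calc 4 * Real.log ll * Real.exp (4 * v) ≤ Real.exp (4 * v) * Real.exp (4 * v) :=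
        mul_le_mul_of_nonneg_right h3 (Real.exp_pos _).le
    _ = Real.exp (8 * v) := by
        rw [← Real.exp_add]
        ring_nf
    _ ≤ Real.exp ll := by
        apply Real.exp_le_exp.2
        nlinarith

/-- the first integers -/
theorem szN {ε : ℝ} (hε : 0 < ε) {x E z : ℕ} (hx : 4 / ε ^ 2 ≤ x) (hE : 16 ≤ E) (hz : 1 ≤ z)
    (hzx : z ^ E ≤ x) : ((z ^ (E / 16) : ℕ) : ℝ) ≤ ε / 2 * x := by
  have h1 : (z ^ (E / 16)) ^ 2 ≤ x := by
    rw [← pow_mul]
    exact (Nat.pow_le_pow_right hz (by omega)).trans hzx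
  have h2 : ((z ^ (E / 16) : ℕ) : ℝ) ^ 2 ≤ x := by exact_mod_cast h1
  have hx0 : (0 : ℝ) ≤ x := Nat.cast_nonneg x
  have h3 : 4 ≤ ε ^ 2 * x := by
    rw [div_le_iff₀ (by positivity)] at hx
    linarith
  have h4 : ((z ^ (E / 16) : ℕ) : ℝ) ^ 2 ≤ (ε / 2 * x) ^ 2 := by
    have : (ε / 2 * x) ^ 2 = ε ^ 2 * x * x / 4 := by ring
    rw [this]
    nlinarith
  exact (sq_le_sq₀ (Nat.cast_nonneg _) (by positivity)).1 h4

/-- small `lam` -/
theorem asA (h1 : StmtUB) (h2 : StmtKC) : ∃ D : ℝ, 3 ≤ D ∧ ∀ ε : ℝ, 0 < ε →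
    ∃ (lam0 : ℝ) (x0 : ℕ), ∀ x : ℕ, x0 ≤ x → ∀ lam : ℝ, lam0 ≤ lam →
    4 * D * lam ≤ Real.log (Real.log (Real.log x)) → ∀ u : ℕ,
    (((Ioc u (u + x)).filter (fun n => ∀ t : ℕ,
      (t : ℝ) ≤ Real.exp (Real.exp (8 * D * lam)) * Real.log x →
      ∃ p, p.Prime ∧ n + t < p ∧ p ≤ n + t + ⌈lam * Real.log x⌉₊)).card : ℝ) ≤ ε * x := by
  obtain ⟨CU, hCU, hUB⟩ := h1
  obtain ⟨cK, hcK, hKC⟩ := h2
  obtain ⟨C1, hC1, hMP⟩ := Pool.Agent.Helper37.PP.mp
  obtain ⟨D, hD⟩ : ∃ D : ℝ, D = max 3 (16 * CU * C1 / cK) := ⟨_, rfl⟩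
  have hD3 : 3 ≤ D := hD ▸ le_max_left _ _
  have hDc : 16 * CU * C1 ≤ cK * D := by
    have : 16 * CU * C1 / cK ≤ D := hD ▸ le_max_right _ _
    rw [div_le_iff₀ hcK] at this
    linarith
  refine ⟨D, hD3, fun ε hε => ?_⟩
  obtain ⟨E1, hE1⟩ := hKC (ε / 2) (by positivity)
  obtain ⟨E2, hE2⟩ := size
  obtain ⟨x1, hx1⟩ := choose3 hD3
  obtain ⟨x0, hx0⟩ := eventually_atTop.1 ((hlogN.eventually logw).and
    ((hllN.eventually szA).and ((eventually_ge_atTop x1).and
      ((tendsto_natCast_atTop_atTop.eventually_ge_atTop (4 / ε ^ 2)).and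
        ((hllN.eventually (Pool.Agent.Helper87.CG.log_le_eps (show (0 : ℝ) < 1 / 2 by norm_num))).and
          (hlllN.eventually_ge_atTop 1))))))
  refine ⟨max 1 (max E1 (max E2 16)), x0, fun x hx lam hlam0 hlam1 u => ?_⟩
  obtain ⟨⟨w1, w2⟩, a1, a2, a3, a4, a5⟩ := hx0 x hx
  have hlam : 1 ≤ lam := (le_max_left _ _).trans hlam0
  have hlamE1 : (E1 : ℝ) ≤ lam := (le_max_left _ _).trans ((le_max_right _ _).trans hlam0)
  have hlamE2 : (E2 : ℝ) ≤ lam :=
    (le_max_left _ _).trans ((le_max_right _ _).trans ((le_max_right _ _).trans hlam0))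
  have hlamE3 : (16 : ℝ) ≤ lam :=
    (le_max_right _ _).trans ((le_max_right _ _).trans ((le_max_right _ _).trans hlam0))
  set l := Real.log (x : ℝ) with hl
  set ll := Real.log l with hll
  set lll := Real.log ll with hlll
  obtain ⟨E, z, u2, u3, u8, u7, u6⟩ := hx1 x a2 lam hlam (by
    have : 8 * D * lam = 2 * (4 * D * lam) := by ring
    linarith)
  have hlE : lam ≤ E := (le_exp hD3 hlam).trans u8
  have v1 : E1 ≤ E := by exact_mod_cast hlamE1.trans hlE
  have v2 : E2 ≤ E := by exact_mod_cast hlamE2.trans hlE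
  have v3 : 16 ≤ E := by exact_mod_cast hlamE3.trans hlE
  have hll0 : 0 < ll := by
    by_contra hcon
    push Not at hcon
    have : lll ≤ ll := by linarith
    linarith
  have hl0 : 1 < l := by
    by_contra hcon
    push Not at hcon
    rcases le_or_gt l 0 with h3 | h3
    · have h4 : 2 ≤ ⌊l / 20⌋₊ := w1
      have h5 : ⌊l / 20⌋₊ = 0 := Nat.floor_of_nonpos (by linarith)
      omega
    · have := Real.log_nonpos h3.le hcon
      linarith
  -- the windows
  obtain ⟨H, hH⟩ : ∃ H : ℕ, H = ⌈lam * l⌉₊ := ⟨_, rfl⟩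
  have hb : 1 ≤ lam * l := by nlinarith
  have hH1 : lam * l ≤ H := by rw [hH]; exact Nat.le_ceil _
  have hH2 : (H : ℝ) ≤ 2 * lam * l := by
    have := Nat.ceil_lt_add_one (by linarith : 0 ≤ lam * l)
    rw [← hH] at this
    linarith
  have hlH : l ≤ H := by nlinarith
  obtain ⟨T, hT⟩ : ∃ T : ℕ, T = ⌈Real.exp ((E : ℝ) ^ 2)⌉₊ := ⟨_, rfl⟩
  have hT1 : Real.exp ((E : ℝ) ^ 2) ≤ T := by rw [hT]; exact Nat.le_ceil _
  have he1 : 1 ≤ Real.exp ((E : ℝ) ^ 2) := Real.one_le_exp (by positivity)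
  have hT2 : (T : ℝ) ≤ 2 * Real.exp ((E : ℝ) ^ 2) := by
    have := Nat.ceil_lt_add_one (Real.exp_pos ((E : ℝ) ^ 2)).le
    rw [← hT] at this
    linarith
  have hT0 : (1 : ℝ) ≤ T := he1.trans hT1
  obtain ⟨y, hy⟩ : ∃ y : ℕ, y = T * H := ⟨_, rfl⟩
  have hEsq : (E : ℝ) ^ 2 ≤ 4 * Real.exp (2 * D * lam) := by
    have e1 : (E : ℝ) ^ 2 ≤ (2 * Real.exp (D * lam)) ^ 2 := pow_le_pow_left₀ u2.le u7 2
    have e2 : (2 * Real.exp (D * lam)) ^ 2 = 4 * Real.exp (2 * D * lam) := by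
      rw [mul_pow, ← Real.exp_nat_mul]
      push_cast
      ring_nf
    linarith
  have hTH : (y : ℝ) ≤ (4 * lam * Real.exp ((E : ℝ) ^ 2)) * l := by
    rw [hy]
    push_cast
    calc (T : ℝ) * H ≤ (2 * Real.exp ((E : ℝ) ^ 2)) * (2 * lam * l) :=
          mul_le_mul hT2 hH2 (Nat.cast_nonneg _) (by positivity)
      _ = _ := by ring
  have hy1 : l ≤ y := by
    rw [hy]
    push_cast
    nlinarith
  have hy2 : (y : ℝ) ≤ l ^ 2 := by
    refine hTH.trans ?_
    have e0 : l ^ 2 = l * l := sq l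
    rw [e0]
    refine mul_le_mul_of_nonneg_right ?_ (by linarith)
    have e1 : 4 * lam * Real.exp ((E : ℝ) ^ 2) ≤
        4 * lll * Real.exp (4 * Real.exp (lll / 2)) := by
      have e2 : lam ≤ lll := by nlinarith
      have e3 : (E : ℝ) ^ 2 ≤ 4 * Real.exp (lll / 2) := by
        refine hEsq.trans ?_
        have : Real.exp (2 * D * lam) ≤ Real.exp (lll / 2) := Real.exp_le_exp.2 (by linarith)
        linarith
      have e4 : 0 ≤ lll := by linarith
      exact mul_le_mul (by linarith) (Real.exp_le_exp.2 e3) (Real.exp_pos _).le (by positivity)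
    refine e1.trans (a1.trans (le_of_eq ?_))
    rw [hll, Real.exp_log (by linarith)]
  have hSu : Su E z x y := u6 y hy1 hy2
  obtain ⟨r1, r2, r3, r4, r5, r6, r7, r8, r9, r10, r11, r12, r13, r14⟩ := hE2 E z x y v2 hSu
  have hlz : 0 < Real.log z := by linarith
  -- the density
  have hom : om y z ≤ C1 * (2 * ll / Real.log z) := by
    refine (hMP y z r7 r9).trans (mul_le_mul_of_nonneg_left ?_ hC1.le)
    apply div_le_div_of_nonneg_right _ hlz.le
    have hy0 : (0 : ℝ) < y := by linarith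
    have := Real.log_le_log hy0 hy2
    rwa [Real.log_pow] at this
  have hom0 : 0 ≤ om y z := Pool.Agent.Helper88.PP.om_nonneg y z
  have hwH : ⌊l / 20⌋₊ ≤ H := by
    have e1 : ((⌊l / 20⌋₊ : ℕ) : ℝ) ≤ l / 20 := Nat.floor_le (by linarith)
    have : ((⌊l / 20⌋₊ : ℕ) : ℝ) ≤ H := by linarith
    exact_mod_cast this
  have hN : l / 20 ≤ ((z ^ (E / 16) : ℕ) : ℝ) := by
    have e1 : z ≤ z ^ (E / 16) := Nat.le_self_pow (by omega) z
    have e2 : (z : ℝ) ≤ ((z ^ (E / 16) : ℕ) : ℝ) := by exact_mod_cast e1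
    have e3 : (y : ℝ) ≤ z := by exact_mod_cast r9
    linarith
  have key := win (x := x) (u := u) (N := z ^ (E / 16)) (H := H) (T := T) (ε := ε / 2)
    (by positivity) hN (fun b hb' => ?_)
  · have hsub : (Ioc u (u + x)).filter (fun n => ∀ t : ℕ,
        (t : ℝ) ≤ Real.exp (Real.exp (8 * D * lam)) * l →
        ∃ p, p.Prime ∧ n + t < p ∧ p ≤ n + t + ⌈lam * l⌉₊) ⊆
        (Ioc u (u + x)).filter (fun n => ∀ t < T, ∃ p, p.Prime ∧ n + t * H < p ∧
      p ≤ n + t * H + H) := by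
      intro n hn
      rw [mem_filter] at hn ⊢
      refine ⟨hn.1, fun t ht => ?_⟩
      rw [hH]
      refine hn.2 (t * ⌈lam * l⌉₊) ?_
      rw [← hH]
      have e1 : ((t * H : ℕ) : ℝ) ≤ y := by
        rw [hy]
        exact_mod_cast Nat.mul_le_mul_right _ ht.le
      refine e1.trans (hTH.trans (mul_le_mul_of_nonneg_right ?_ (by linarith)))
      obtain ⟨v, hv⟩ : ∃ v : ℝ, v = Real.exp (2 * D * lam) := ⟨_, rfl⟩
      have f1 : 2 * D * lam + 1 ≤ v := by rw [hv]; exact Real.add_one_le_exp _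
      have f2 : 4 * lam ≤ v := by nlinarith
      have f3 : (E : ℝ) ^ 2 ≤ 4 * v := by rw [hv]; exact hEsq
      have f4 : Real.exp (8 * D * lam) = v ^ 4 := by
        rw [hv, ← Real.exp_nat_mul]
        push_cast
        ring_nf
      have f5 : v ≤ Real.exp v := by
        have := Real.add_one_le_exp v
        linarith
      have f6 : 5 ≤ v := by nlinarith
      calc 4 * lam * Real.exp ((E : ℝ) ^ 2) ≤ Real.exp v * Real.exp (4 * v) :=
            mul_le_mul (f2.trans f5) (Real.exp_le_exp.2 f3) (Real.exp_pos _).le (Real.exp_pos _).le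
        _ = Real.exp (5 * v) := by rw [← Real.exp_add]; ring_nf
        _ ≤ Real.exp (Real.exp (8 * D * lam)) := by
            apply Real.exp_le_exp.2
            rw [f4]
            have f7 : 5 * v ≤ v * v := by nlinarith
            have f8 : v * v ≤ v ^ 4 := by
              have f9 : v ^ 2 ≤ v ^ 4 := pow_le_pow_right₀ (by linarith) (by norm_num)
              linarith [sq v]
            linarith
    have e1 := (Nat.cast_le (α := ℝ)).2 (card_le_card hsub)
    have e2 := szN hε a3 v3 (by omega) hSu.2.1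
    refine e1.trans (key.trans ?_)
    linarith
  · have := hE1 E z x y v1 hSu u (u + x) (QQ x) b ⟨dvd_rfl, hb', by omega⟩ (range T)
      (fun t => Pt (QQ x) H b t) (by rw [card_range]; exact hT1) ?_ ?_ ?_
    · simpa only [mem_range] using this
    · intro t ht i hi
      rw [mem_range] at ht
      unfold Pt at hi
      rw [mem_filter, mem_Ioc] at hi
      rw [mem_Icc, hy]
      have e1 : t * H + H ≤ T * H := by
        calc t * H + H = (t + 1) * H := by ring
          _ ≤ T * H := Nat.mul_le_mul_right _ ht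
      omega
    · intro t _ t' _ hne
      rw [Finset.disjoint_left]
      intro i hi hi'
      unfold Pt at hi hi'
      rw [mem_filter, mem_Ioc] at hi hi'
      rcases Nat.lt_or_gt_of_ne hne with h3 | h3
      · have : (t + 1) * H ≤ t' * H := Nat.mul_le_mul_right _ h3
        rw [add_mul, one_mul] at this
        omega
      · have : (t' + 1) * H ≤ t * H := Nat.mul_le_mul_right _ h3
        rw [add_mul, one_mul] at this
        omega
    · intro t _
      exact few hCU hC1 (by linarith) hll0 u2 (by linarith) hDc (pts hUB w1 hwH b t) hH2 w2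
        (Nat.cast_nonneg _) hom r3 hlz (Nat.cast_nonneg _) hom0 hcK u3

end Pool.Agent.Helper88.TA
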