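import Pool.Agent.Helper88.TA.AsA
import Pool.Agent.Helper11.GM.MO

/-! # TA: the second range of `lam` -/

set_option autoImplicit false

open Finset Filter Topology

open scoped Classical

namespace Pool.Agent.Helper88.TA

open Pool.Agent.Helper88.PP (pr Rg om Sf SS uu vv ee LA VV QQ cost dd)
open Pool.Agent.Helper88.GM (NI XI In Sr)
open Pool.Agent.Helper88.AC (hlogN hllN hlllN)

/-- large `lam` -/
theorem asB (h1 : StmtUB) (h2 : StmtKG) : ∃ D : ℝ, 3 ≤ D ∧ ∀ ε : ℝ, 0 < ε →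
    ∃ x0 : ℕ, ∀ x : ℕ, x0 ≤ x → ∀ lam : ℝ,
    Real.log (Real.log (Real.log x)) ≤ lam → 8 * D * lam ≤ Real.log (Real.log x) → ∀ u : ℕ,
    (((Ioc u (u + x)).filter (fun n => ∀ t : ℕ,
      (t : ℝ) ≤ Real.exp (Real.exp (8 * D * lam)) →
      ∃ p, p.Prime ∧ n + t < p ∧ p ≤ n + t + ⌈lam * Real.log x⌉₊)).card : ℝ) ≤ ε * x := by
  obtain ⟨CU, hCU, hUB⟩ := h1
  obtain ⟨cK, hcK, hKG⟩ := h2
  obtain ⟨C1, hC1, hMP⟩ := Pool.Agent.Helper37.PP.mp
  obtain ⟨D, hD⟩ : ∃ D : ℝ, D = max 3 (16 * CU * C1 / cK) := ⟨_, rfl⟩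
  have hD3 : 3 ≤ D := hD ▸ le_max_left _ _
  have hDc : 16 * CU * C1 ≤ cK * D := by
    have : 16 * CU * C1 / cK ≤ D := hD ▸ le_max_right _ _
    rw [div_le_iff₀ hcK] at this
    linarith
  refine ⟨D, hD3, fun ε hε => ?_⟩
  obtain ⟨E1, hE1⟩ := hKG (ε / 2) (by positivity)
  have e1 : ∀ᶠ u : ℝ in atTop, u ≤ Real.exp (u / 8) := by
    have h1 : ∀ᶠ u : ℝ in atTop, u ^ 1 * Real.exp (-u) < 1 / 8 :=
      (Real.tendsto_pow_mul_exp_neg_atTop_nhds_zero 1).eventually (gt_mem_nhds (by positivity))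
    have h2 : Tendsto (fun u : ℝ => u / 8) atTop atTop :=
      tendsto_id.atTop_div_const (by norm_num)
    filter_upwards [h2.eventually h1] with u hu
    rw [pow_one, Real.exp_neg, ← div_eq_mul_inv, div_lt_iff₀ (Real.exp_pos _)] at hu
    linarith
  have e2 : ∀ᶠ u : ℝ in atTop, ((max E1 16 : ℕ) : ℝ) ≤ u ^ 3 :=
    (tendsto_pow_atTop (by norm_num : (3 : ℕ) ≠ 0)).eventually_ge_atTop _
  have e3 : ∀ᶠ u : ℝ in atTop, 3 ≤ Real.exp (u / 8) := by
    filter_upwards [eventually_ge_atTop (16 : ℝ)] with u hu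
    have := Real.add_one_le_exp (u / 8)
    linarith
  obtain ⟨x0, hx0⟩ := eventually_atTop.1 ((hlogN.eventually logw).and
    ((hlogN.eventually_ge_atTop 900).and ((hlllN.eventually_ge_atTop 1).and
      ((hllN.eventually e1).and ((hllN.eventually e2).and ((hllN.eventually e3).and
        (tendsto_natCast_atTop_atTop.eventually_ge_atTop (4 / ε ^ 2))))))))
  refine ⟨x0, fun x hx lam hlam1 hlam2 u => ?_⟩
  obtain ⟨⟨w1, w2⟩, hl, h3, hw, hE0, hw3, a3⟩ := hx0 x hx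
  set l := Real.log (x : ℝ) with hldef
  obtain ⟨E, hE⟩ : ∃ E, E = ⌈Real.exp (D * lam)⌉₊ := ⟨_, rfl⟩
  obtain ⟨H, hH⟩ : ∃ H, H = ⌈lam * l⌉₊ := ⟨_, rfl⟩
  obtain ⟨T, hT⟩ : ∃ T, T = 2 * ⌈Real.exp ((E : ℝ) ^ 2)⌉₊ := ⟨_, rfl⟩
  obtain ⟨s1, s2, s3, s4, s5, s6, s7, s8, s9⟩ :=
    Pool.Agent.Helper11.GM.sizes hD3 hl h3 hw3 hw hlam1 hlam2 hE hH hT
  have hEE : max E1 16 ≤ E := by
    have : ((max E1 16 : ℕ) : ℝ) ≤ E := hE0.trans s3
    exact_mod_cast this
  have v1 : E1 ≤ E := (le_max_left _ _).trans hEE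
  have v3 : 16 ≤ E := (le_max_right _ _).trans hEE
  have hxpos : (0 : ℝ) < x := by
    by_contra hcon
    have h3 : (x : ℝ) = 0 := le_antisymm (not_lt.1 hcon) (Nat.cast_nonneg _)
    rw [hldef, h3, Real.log_zero] at hl
    linarith
  have hHpos : 0 < H := by
    have : (0 : ℝ) < H := by linarith
    exact_mod_cast this
  have hceil : 1 ≤ ⌈Real.exp ((E : ℝ) ^ 2)⌉₊ := Nat.one_le_ceil_iff.2 (Real.exp_pos _)
  have hTpos : 0 < T := by omega
  have hTHpos : 0 < T * H := Nat.mul_pos hTpos hHpos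
  have hTHR : (0 : ℝ) < ((T * H : ℕ) : ℝ) := by exact_mod_cast hTHpos
  have hpow : (T * H) ^ E ≤ x := by
    have h1 : Real.log (((T * H : ℕ) : ℝ) ^ E) ≤ Real.log x := by
      rw [Real.log_pow]
      exact s8
    have h2 := (Real.log_le_log_iff (by positivity) hxpos).1 h1
    exact_mod_cast h2
  obtain ⟨z, hzz0, hzx, hxz⟩ := Pool.Agent.Helper88.PP.root_exists E (T * H) x s2 hpow
  have hexpT : Real.exp ((E : ℝ) ^ 2) ≤ T := by
    have h1 := Nat.le_ceil (Real.exp ((E : ℝ) ^ 2))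
    rw [hT]
    push_cast
    have := Real.exp_pos ((E : ℝ) ^ 2)
    linarith
  have hER : (1 : ℝ) ≤ E := by exact_mod_cast s2
  have hTz : Real.exp ((E : ℝ) ^ 2) ≤ z := by
    calc Real.exp ((E : ℝ) ^ 2) ≤ T := hexpT
      _ ≤ ((T * H : ℕ) : ℝ) := by exact_mod_cast Nat.le_mul_of_pos_right T hHpos
      _ ≤ z := by exact_mod_cast hzz0
  have hexpz : Real.exp E ≤ z := by
    calc Real.exp E ≤ Real.exp ((E : ℝ) ^ 2) := Real.exp_le_exp.2 (by nlinarith)
      _ ≤ z := hTz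
  have hll0 : 0 < Real.log l := by
    have : 0 < Real.exp (Real.log l / 8) := Real.exp_pos _
    have h4 : 8 * 3 * 1 ≤ 8 * D * lam := by
      have : 0 ≤ D := by linarith
      nlinarith
    linarith
  have hSr : Sr E z x H := ⟨hexpz, hzx, hxz, s5, s7, s3⟩
  have hHz : H ≤ z := le_trans (Nat.le_mul_of_pos_left H hTpos) hzz0
  have hz1 : 1 ≤ z := by omega
  have hzr : (1 : ℝ) < z := lt_of_lt_of_le (Real.one_lt_exp_iff.2 (by linarith)) hexpz
  have hlz : 0 < Real.log z := Real.log_pos hzr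
  have hH2 : 2 ≤ H := by
    have : (2 : ℝ) ≤ H := by linarith
    exact_mod_cast this
  -- the density
  have hom : om H z ≤ C1 * (2 * Real.log l / Real.log z) := by
    refine (hMP H z hH2 hHz).trans (mul_le_mul_of_nonneg_left ?_ hC1.le)
    apply div_le_div_of_nonneg_right _ hlz.le
    have hy0 : (0 : ℝ) < H := by exact_mod_cast hHpos
    have := Real.log_le_log hy0 s7
    rwa [Real.log_pow] at this
  have hom0 : 0 ≤ om H z := Pool.Agent.Helper88.PP.om_nonneg H z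
  have hlx : l ≤ 2 * (E * Real.log z) := by
    have h4 : l ≤ E * Real.log ((z : ℝ) + 1) := by
      rw [← Real.log_pow]
      exact Real.log_le_log hxpos (by exact_mod_cast hxz.le)
    have hz65 : (2 : ℝ) ≤ z := by
      have h5 : ((2 : ℕ) : ℝ) ≤ z := by exact_mod_cast (hH2.trans hHz)
      push_cast at h5
      exact h5
    have h5 : Real.log ((z : ℝ) + 1) ≤ 2 * Real.log z := by
      have h6 : Real.log ((z : ℝ) + 1) ≤ Real.log ((z : ℝ) ^ 2) :=
        Real.log_le_log (by linarith) (by nlinarith)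
      rwa [Real.log_pow] at h6
    nlinarith
  have hwH : ⌊l / 20⌋₊ ≤ H := by
    have e1 : ((⌊l / 20⌋₊ : ℕ) : ℝ) ≤ l / 20 := Nat.floor_le (by linarith)
    have : ((⌊l / 20⌋₊ : ℕ) : ℝ) ≤ H := by linarith
    exact_mod_cast this
  have hN : l / 20 ≤ ((z ^ (E / 16) : ℕ) : ℝ) := by
    have e1 : z ≤ z ^ (E / 16) := Nat.le_self_pow (by omega) z
    have e2 : (z : ℝ) ≤ ((z ^ (E / 16) : ℕ) : ℝ) := by exact_mod_cast e1
    have e3 : (H : ℝ) ≤ z := by exact_mod_cast hHz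
    linarith
  have key := win (x := x) (u := u) (N := z ^ (E / 16)) (H := H) (T := T) (ε := ε / 2)
    (by positivity) hN (fun b hb' => ?_)
  · have hsub : (Ioc u (u + x)).filter (fun n => ∀ t : ℕ,
        (t : ℝ) ≤ Real.exp (Real.exp (8 * D * lam)) →
        ∃ p, p.Prime ∧ n + t < p ∧ p ≤ n + t + ⌈lam * l⌉₊) ⊆
        (Ioc u (u + x)).filter (fun n => ∀ t < T, ∃ p, p.Prime ∧ n + t * H < p ∧
      p ≤ n + t * H + H) := by
      intro n hn
      rw [mem_filter] at hn ⊢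
      refine ⟨hn.1, fun t ht => ?_⟩
      rw [hH]
      refine hn.2 (t * ⌈lam * l⌉₊) ?_
      rw [← hH]
      have e1 : ((t * H : ℕ) : ℝ) ≤ ((T * H : ℕ) : ℝ) := by
        exact_mod_cast Nat.mul_le_mul_right _ ht.le
      exact e1.trans s9
    have e1 := (Nat.cast_le (α := ℝ)).2 (card_le_card hsub)
    have e2 := szN hε a3 v3 hz1 hzx
    refine e1.trans (key.trans ?_)
    linarith
  · have hdiv : ∀ t : ℕ, t * H / H = t := fun t => Nat.mul_div_cancel t hHpos
    have := hE1 E z x H v1 hSr u (u + x) (QQ x) b ⟨dvd_rfl, hb', by omega⟩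
      ((range T).image (fun t => t * H))
      (fun t => Pt (QQ x) H b (t / H)) ?_ ?_ ?_ ?_ ?_
    · refine le_trans (Nat.cast_le.2 (card_le_card ?_)) this
      intro n hn
      rw [mem_filter] at hn ⊢
      refine ⟨hn.1, hn.2.1, fun t ht => ?_⟩
      obtain ⟨i, hi, rfl⟩ := mem_image.1 ht
      simp only [hdiv]
      exact hn.2.2 i (mem_range.1 hi)
    · rw [card_image_of_injective _ (fun a a' h => Nat.eq_of_mul_eq_mul_right hHpos h),
        card_range]
      exact hexpT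
    · intro t ht
      obtain ⟨i, hi, rfl⟩ := mem_image.1 ht
      refine le_trans ?_ hzz0
      calc i * H + H = (i + 1) * H := by ring
        _ ≤ T * H := Nat.mul_le_mul_right _ (mem_range.1 hi)
    · intro t ht t' ht' hlt
      obtain ⟨i, hi, rfl⟩ := mem_image.1 ht
      obtain ⟨i', hi', rfl⟩ := mem_image.1 ht'
      have h4 : i < i' := lt_of_mul_lt_mul_right hlt (Nat.zero_le _)
      calc i * H + H = (i + 1) * H := by ring
        _ ≤ i' * H := Nat.mul_le_mul_right _ h4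
    · intro t ht i hi
      obtain ⟨j, hj, rfl⟩ := mem_image.1 ht
      simp only [hdiv] at hi
      unfold Pt at hi
      rw [mem_filter, mem_Ioc] at hi
      rw [mem_Icc]
      omega
    · intro t _
      exact few hCU hC1 (by linarith) hll0 (by linarith) (by linarith) hDc
        (pts hUB w1 hwH b (t / H)) s6 w2
        (Nat.cast_nonneg _) hom hlx hlz (Nat.cast_nonneg _) hom0 hcK s4

end Pool.Agent.Helper88.TA
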