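import Pool.Agent.Helper88.TA.AsB
import Pool.Agent.Helper88.PA.AE

/-! # TA: the conclusion -/

set_option autoImplicit false

open Finset Filter Topology

open scoped Classical

namespace Pool.Agent.Helper88.TA

open Pool.Agent.Helper88.AC (hlogN hllN hlllN)

theorem as_ (h1 : StmtUB) (h2 : StmtKC) (h3 : StmtKG) : StmtAS := by
  obtain ⟨D1, hD1, hA⟩ := asA h1 h2
  obtain ⟨D2, hD2, hB⟩ := asB h1 h3
  refine ⟨1 / (32 * D1 * D2), 32 * D1 * D2, by positivity, by positivity, fun ε hε => ?_⟩
  obtain ⟨lam0, x1, hA⟩ := hA ε hε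
  obtain ⟨x2, hB⟩ := hB ε hε
  obtain ⟨x3, hx3⟩ := eventually_atTop.1 ((hlogN.eventually_ge_atTop 1).and
    (eventually_ge_atTop (max x1 x2)))
  refine ⟨max 1 lam0, x3, fun x hx lam hlam0 hlam1 u => ?_⟩
  obtain ⟨hl, hxx⟩ := hx3 x hx
  have hx1 : x1 ≤ x := (le_max_left _ _).trans hxx
  have hx2 : x2 ≤ x := (le_max_right _ _).trans hxx
  have hlam : 1 ≤ lam := (le_max_left _ _).trans hlam0
  have hlamA : lam0 ≤ lam := (le_max_right _ _).trans hlam0
  have hDD : 0 < 32 * D1 * D2 := by positivity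
  have hlamB : 32 * D1 * D2 * lam ≤ Real.log (Real.log x) := by
    calc 32 * D1 * D2 * lam ≤ 32 * D1 * D2 * (1 / (32 * D1 * D2) * Real.log (Real.log x)) :=
          mul_le_mul_of_nonneg_left hlam1 hDD.le
      _ = Real.log (Real.log x) := by
          field_simp
  set l := Real.log (x : ℝ) with hldef
  rcases le_or_gt (4 * D1 * lam) (Real.log (Real.log l)) with hc | hc
  · refine le_trans (Nat.cast_le.2 (card_le_card ?_)) (hA x hx1 lam hlamA hc u)
    intro n hn
    rw [mem_filter] at hn ⊢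
    refine ⟨hn.1, fun t ht => hn.2 t (ht.trans ?_)⟩
    refine mul_le_mul_of_nonneg_right ?_ (by linarith)
    apply Real.exp_le_exp.2
    apply Real.exp_le_exp.2
    have : 8 * D1 * lam ≤ 32 * D1 * D2 * lam := by
      have h4 : 0 ≤ D1 * lam := by positivity
      nlinarith
    exact this
  · have h5 := hB x hx2 (4 * D1 * lam) hc.le (by
      have : 8 * D2 * (4 * D1 * lam) = 32 * D1 * D2 * lam := by ring
      rw [this]
      exact hlamB) u
    refine le_trans (Nat.cast_le.2 (card_le_card ?_)) h5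
    intro n hn
    rw [mem_filter] at hn ⊢
    refine ⟨hn.1, fun t ht => ?_⟩
    obtain ⟨p, hp1, hp2, hp3⟩ := hn.2 t (by
      refine ht.trans ?_
      have e1 : 8 * D2 * (4 * D1 * lam) = 32 * D1 * D2 * lam := by ring
      rw [e1]
      exact le_mul_of_one_le_right (Real.exp_pos _).le hl)
    refine ⟨p, hp1, hp2, hp3.trans ?_⟩
    apply Nat.add_le_add_left
    apply Nat.ceil_le_ceil
    refine mul_le_mul_of_nonneg_right ?_ (by linarith)
    nlinarith

theorem au (h : StmtAS) : StmtAU := by
  obtain ⟨c, C, hc, hC, h⟩ := h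
  refine ⟨c / 2, C, by positivity, fun ε hε => ?_⟩
  obtain ⟨lam0, x0, hx0⟩ := h (ε / 2) (by positivity)
  obtain ⟨l1, hl1⟩ : ∃ l1 : ℝ, l1 = max lam0 1 := ⟨_, rfl⟩
  have hl1a : lam0 ≤ l1 := hl1 ▸ le_max_left _ _
  have hl1b : 1 ≤ l1 := hl1 ▸ le_max_right _ _
  obtain ⟨H, hH⟩ := eventually_atTop.1
    ((Real.tendsto_log_atTop.eventually_ge_atTop 1).and
      (((Real.tendsto_log_atTop.comp Real.tendsto_log_atTop).eventually_ge_atTop (2 * l1 / c)).and
        ((eventually_ge_atTop (max 2 (x0 : ℝ))))))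
  refine ⟨Real.exp (C * l1) + 1, H, fun h' hh u hu L hL0 hL1 => ?_⟩
  obtain ⟨e1, e2, e3⟩ := hH h' hh
  have h2 : 2 ≤ h' := (le_max_left _ _).trans e3
  have hx0' : (x0 : ℝ) ≤ h' := (le_max_right _ _).trans e3
  set l := Real.log h' with hl
  -- the length of the interval
  obtain ⟨x, hx⟩ : ∃ x : ℕ, x = ⌊h'⌋₊ + 1 := ⟨_, rfl⟩
  have x1 : h' < x := by
    rw [hx]
    push_cast
    exact Nat.lt_floor_add_one _
  have x2 : (x : ℝ) ≤ 2 * h' := by
    rw [hx]
    push_cast
    have := Nat.floor_le (by linarith : 0 ≤ h')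
    linarith
  have x3 : x0 ≤ x := by
    have : (x0 : ℝ) ≤ x := by linarith
    exact_mod_cast this
  have lx1 : l ≤ Real.log x := Real.log_le_log (by linarith) x1.le
  have lx2 : Real.log x ≤ 2 * l := by
    have e4 : Real.log x ≤ Real.log (h' ^ 2) := Real.log_le_log (by linarith) (by nlinarith)
    rwa [Real.log_pow] at e4
  have llx : Real.log l ≤ Real.log (Real.log x) := Real.log_le_log (by linarith) lx1
  obtain ⟨lam, hlam⟩ : ∃ lam : ℝ, lam = L + l1 := ⟨_, rfl⟩
  have hlam1 : 1 ≤ lam := by linarith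
  have key := hx0 x x3 lam (by linarith) (by
    have e4 : 2 * l1 ≤ c * Real.log l := by
      have := e2
      simp only [Function.comp] at this
      rw [div_le_iff₀ hc] at this
      linarith
    have e5 : c * Real.log l ≤ c * Real.log (Real.log x) := mul_le_mul_of_nonneg_left llx hc.le
    have e6 : c / 2 * Real.log l = c * Real.log l / 2 := by ring
    rw [hlam]
    linarith) ⌊u⌋₊
  have hset : {m : ℕ | u < m ∧ (m : ℝ) ≤ u + h' ∧ ¬ ∃ n : ℕ, m < Nat.nth Nat.Prime (n + 1) ∧
      (Nat.nth Nat.Prime n : ℝ) ≤ m + Real.exp ((Real.exp (C * l1) + 1) * Real.exp (C * L)) * l ∧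
      L * l ≤ (Nat.nth Nat.Prime (n + 1) : ℝ) - Nat.nth Nat.Prime n - 1} ⊆
      (((Ioc ⌊u⌋₊ (⌊u⌋₊ + x)).filter (fun n => ∀ t : ℕ,
      (t : ℝ) ≤ Real.exp (Real.exp (C * lam)) * Real.log x →
      ∃ p, p.Prime ∧ n + t < p ∧ p ≤ n + t + ⌈lam * Real.log x⌉₊) : Finset ℕ) : Set ℕ) := by
    rintro m ⟨hm1, hm2, hm3⟩
    have hum : ⌊u⌋₊ < m := by
      rw [Nat.floor_lt hu]
      exact hm1
    rw [mem_coe, mem_filter, mem_Ioc]
    refine ⟨⟨hum, ?_⟩, fun t ht => ?_⟩
    · have e4 : (m : ℝ) < ((⌊u⌋₊ + x + 1 : ℕ) : ℝ) := by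
        push_cast
        have := Nat.lt_floor_add_one u
        linarith
      have e5 : m < ⌊u⌋₊ + x + 1 := by exact_mod_cast e4
      omega
    · by_contra hcon
      push Not at hcon
      apply hm3
      have hl0 : 1 ≤ ⌈lam * Real.log x⌉₊ := by
        apply Nat.one_le_ceil_iff.2
        have : 0 < Real.log x := by linarith
        positivity
      have ht2 : 2 ≤ m + t := by
        by_contra h3
        have h4 : m + t = 1 := by omega
        have h5 := hcon 2 Nat.prime_two (by omega)
        omega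
      obtain ⟨n, hn1, hn2, hn3⟩ := Pool.Agent.Helper88.PA.gap_of_free m (m + t)
        ⌈lam * Real.log x⌉₊ (by omega) ht2 (fun p hp hpt => hcon p hp hpt)
      refine ⟨n, hn1, ?_, ?_⟩
      · have e4 : (Nat.nth Nat.Prime n : ℝ) ≤ m + t := by exact_mod_cast hn2
        have e5 : Real.exp (Real.exp (C * lam)) * Real.log x ≤
            Real.exp ((Real.exp (C * l1) + 1) * Real.exp (C * L)) * l := by
          have e6 : Real.exp (C * lam) = Real.exp (C * l1) * Real.exp (C * L) := by
            rw [← Real.exp_add, hlam]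
            ring_nf
          have e7 : 1 ≤ Real.exp (C * L) := Real.one_le_exp (by positivity)
          have e8 : 2 ≤ Real.exp (Real.exp (C * L)) := by
            have := Real.add_one_le_exp (Real.exp (C * L))
            linarith
          have e9 : Real.exp ((Real.exp (C * l1) + 1) * Real.exp (C * L)) =
              Real.exp (Real.exp (C * lam)) * Real.exp (Real.exp (C * L)) := by
            rw [← Real.exp_add, e6]
            ring_nf
          rw [e9]
          calc Real.exp (Real.exp (C * lam)) * Real.log x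
              ≤ Real.exp (Real.exp (C * lam)) * (2 * l) :=
                mul_le_mul_of_nonneg_left lx2 (Real.exp_pos _).le
            _ = Real.exp (Real.exp (C * lam)) * 2 * l := by ring
            _ ≤ Real.exp (Real.exp (C * lam)) * Real.exp (Real.exp (C * L)) * l := by
                gcongr
        linarith
      · refine le_trans ?_ hn3
        refine le_trans ?_ (Nat.le_ceil _)
        have e4 : L * l ≤ L * Real.log x := mul_le_mul_of_nonneg_left lx1 hL0
        have e5 : L * Real.log x ≤ lam * Real.log x :=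
          mul_le_mul_of_nonneg_right (by linarith) (by linarith)
        linarith
  have hcard := Set.ncard_le_ncard hset (Finset.finite_toSet _)
  rw [Set.ncard_coe_finset] at hcard
  have hcard' := (Nat.cast_le (α := ℝ)).2 hcard
  refine hcard'.trans (key.trans ?_)
  nlinarith

end Pool.Agent.Helper88.TA
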