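import Pool.Agent.Helper88.TU.Goals

/-!
# Almost all integers of every interval are close to a large gap between primes: statements

Main theorem (`StmtAU`): there are `c > 0` and `C` such that for every `ε > 0` there are `A`, `H` such
that for all `h ≥ H`, all `u ≥ 0` and all `0 ≤ L ≤ c log log h`, all but at most `ε h` of the integers
`m ∈ (u, u + h]` have a gap between primes of length at least `L log h` which meets
`[m, m + exp (A exp (C L)) log h]`.  (For fixed `L`: within `T log h`, `T` a constant.)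

Weights: as `TU` (`L ≤ c log log log h`, all windows in `[1, y]`) and `GM` (`L` larger, windows in
`[1, z]`).  New: a fourth moment of the weight (`StmtFM`) in place of the bound for single integers
(`GM.StmtSU`), so that the interval may be anywhere; and an upper bound sieve in short intervals
(`StmtUB`), so that all windows have few points in all classes.
-/

set_option autoImplicit false

open Finset Filter Topology

open scoped Classical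

namespace Pool.Agent.Helper88.TA

open Pool.Agent.Helper88.PP (pr Rg om Sf SS uu vv ee LA VV QQ cost dd)
open Pool.Agent.Helper88.RR (gg ab TB WB nz wb DB VM GB)
open Pool.Agent.Helper88.GM (NI XI In Sr)
open Pool.Agent.Helper88.TU (Su)

/-- PACKET UB (the upper bound sieve for an interval; may assume `TU.StmtBH`, `TU.StmtBM`; Mertens is
`Pool.Agent.Helper37.PP.mp`, `Pool/Agent/Helper37/PP/HM.lean`).
Proof.  Fix `E = E0` (of `StmtBM`, and `≥ 64`), `y = E²`, `z = min w ⌊H^(16/E)⌋₊`.  If `z < max (exp E) y + 1`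
then `w` is bounded (note `w ≤ H`), and the bound `H` is enough.  Otherwise, with `S(n)` the primes of
`pr y z` which divide `n`, BH gives
`#{n : S(n) = ∅} ≤ ∑_{A ∈ AA} (-1)^#A #{n ∈ (M, M+H] : ∏A ∣ n} ≤ H ∑_{A ∈ AA} (-1)^#A/∏A + #AA`; by BM
with `k = 1` the sum is at most `2 gg y z 1 = 2 om y z ≤ 2 C log y/log z`, and
`#AA ≤ z^(E/32) ≤ √H` (the products are different, squarefree numbers), while
`log z ≥ c log w`. -/
def StmtUB : Prop := ∃ C : ℝ, 0 < C ∧ ∀ w H M : ℕ, 2 ≤ w → w ≤ H →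
  (((Ioc M (M + H)).filter (fun n => ∀ p : ℕ, p.Prime → p ≤ w → ¬ p ∣ n)).card : ℝ)
    ≤ C * (H / Real.log w)

/-- PACKET S3 (two disjoint sets of points; may assume `TU.StmtTG`).  As `Pool/Agent/Helper13/GM/S3.lean`
(its `sum_TU`, `nz_split`, .. may be imported): `TG` with `P ∪ P'`, `F = G = ∅`, `w = E/16`, and
`gg (k + l) ≤ gg k · gg l`. -/
def StmtS3 : Prop := ∀ ε : ℝ, 0 < ε → ∃ E0 : ℕ, ∀ E z x y : ℕ, E0 ≤ E → Su E z x y →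
  ∀ u v Q b : ℕ, In x u v Q b → ∀ m q : ℕ, 1 ≤ m → q * m ≤ E / 16 → 1 ≤ VV z m (q * m) →
  (2 * (E / 16 / m + 1)) ^ 3 ≤ E →
  ∀ P P' : Finset ℕ, P ⊆ Icc 1 y → P' ⊆ Icc 1 y → Disjoint P P' →
  ((P.card : ℝ) + P'.card) * om y z ≤ (E : ℝ) ^ 2 →
    ∑ n ∈ NI u v Q b, WB m q (E / 16) z y P n ^ 2 * WB m q (E / 16) z y P' n ^ 2 ≤
      (1 + ε) * (XI u v Q * (DB m q (E / 16) z y P * DB m q (E / 16) z y P'))

/-- PACKET FM (the fourth moment of a function given by labels, an upper bound; no hypotheses).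
Proof.  For `r ≠ 0`: `|vv y z r m| ≤ 1_{Rg m} ∏_{p ∣ (r, m)} p ≤ 1_{Rg m} ∑_{d ∣ r, d ∣ m} d` (`r` squarefree;
`|1 - p| ≤ p`).  So
`|∑_r c r ∏ vv| ≤ ∑_{d ∈ 𝒟} C^(nz d) 1[∀ i, d i ≠ 0 → d i ∣ n + pt i ∧ Rg]`, where `𝒟` is the set of all `d`
with `d i ∈ {0} ∪ SS z X`, `nz d ≤ K` and `(∏ max 1 (d i))^4 ≤ D` (`d i ∣ r i`, `d i = 0 ↔ r i = 0`, and
`d ∑_{d ∣ r} al r ≤ C` at each point).  In the fourth power put `e i` = the least common multiple of the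
nonzero ones among `d1 i, .., d4 i` (`0` if all are `0`): `e i ∈ {0} ∪ SS z (X^4)`, `nz e ≤ 4K`,
`∏ max 1 (e i) ≤ D`, and at most `16^(ω(e i) + 1)` quadruples give `e i` (each `d_j i` is `0` or a divisor
of `e i`).  Then the hypothesis on the counts, and the sum over the supports `B`, `#B ≤ 4K`, of `e` as in
`Helper3.PP.sumBB`. -/
def StmtFM : Prop := ∀ (ι : Type) [Fintype ι] [DecidableEq ι] (pt : ι → ℕ) (y z X D K : ℕ)
  (N : Finset ℕ) (Y o C : ℝ) (T : Finset (ι → ℕ)) (c : (ι → ℕ) → ℝ) (al : ℕ → ℝ),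
  2 ≤ z → 0 ≤ Y → 0 ≤ o → 1 ≤ C →
  (∀ r ∈ T, ∀ i, r i = 0 ∨ r i ∈ SS z X) → (∀ r ∈ T, nz r ≤ K) →
  (∀ r ∈ T, (∏ i, max 1 (r i)) ^ 4 ≤ D) →
  (∀ r, 0 ≤ al r) → (∀ r ∈ T, |c r| ≤ ∏ i, (if r i = 0 then 1 else al (r i))) →
  (∀ d ∈ SS z X, (d : ℝ) * ∑ r ∈ (SS z X).filter (fun r => d ∣ r), al r ≤ C) →
  (∀ e : ι → ℕ, (∀ i, e i = 0 ∨ Sf z (e i)) → ∏ i, max 1 (e i) ≤ D → nz e ≤ 4 * K →
    ((N.filter (fun n => ∀ i, e i ≠ 0 → e i ∣ n + pt i ∧ Rg y z (n + pt i))).card : ℝ)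
      ≤ Y * ∏ i, dd o (e i)) →
  ∑ n ∈ N, (∑ r ∈ T, c r * ∏ i, vv y z (r i) (n + pt i)) ^ 4
    ≤ Y * (1 + Fintype.card ι * (o * (16 * C ^ 4 *
        ∑ e ∈ SS z (X ^ 4), (16 : ℝ) ^ e.primeFactors.card / e))) ^ (4 * K)

/-- PACKET W4 (the fourth moment of the weight; may assume FM, `TU.StmtTL`, and the existing
`RR.StmtCB` (`Helper31.RR.cb`), `PP.StmtMA` (`Helper24.PP.ma`)).
FM with `T = TB`, `K = E/16/m + 1`, `X = z^(q m)`, `D = z^(4 (E/16))`, `al = ab` (extended by `0` outside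
`LA`), `o = om y z`, `Y = 2 XI`; `gg y z k ≤ om^k`; `∑ 16^ω(e)/e ≤ (∑ 3^ω(e)/e)^6 ≤ (C E)^18`;
`#P om ≤ E²`, `K³ ≤ E`: the result is at most `2 XI (1 + E² (C E)^19)^(4K) ≤ exp(E²/2) XI`. -/
def StmtW4 : Prop := ∃ E0 : ℕ, ∀ E z x y : ℕ, E0 ≤ E → Su E z x y →
  ∀ u v Q b : ℕ, In x u v Q b → ∀ m q : ℕ, 1 ≤ m → q * m ≤ E / 16 → 1 ≤ VV z m (q * m) →
  (E / 16 / m + 1) ^ 3 ≤ E →
  ∀ P : Finset ℕ, P ⊆ Icc 1 y → (P.card : ℝ) * om y z ≤ (E : ℝ) ^ 2 →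
    ∑ n ∈ NI u v Q b, WB m q (E / 16) z y P n ^ 4 ≤ Real.exp ((E : ℝ) ^ 2 / 2) * XI u v Q

/-- PACKET V4 (the same for the parameters of `GM`; may assume FM, and the existing `GM.StmtTL`
(`Helper8.GM.tl Helper6.RR.bo`), `GM.StmtGU` or `GM.StmtGW` (`Helper31.GM.gw`), `RR.StmtCB`, `PP.StmtMA`). -/
def StmtV4 : Prop := ∃ E0 : ℕ, ∀ E z x y : ℕ, E0 ≤ E → Sr E z x y →
  ∀ u v Q b : ℕ, In x u v Q b → ∀ m q : ℕ, 1 ≤ m → q * m ≤ E / 16 → 1 ≤ VV z m (q * m) →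
  (E / 16 / m + 1) ^ 3 ≤ E → ∀ t : ℕ, t + y ≤ z →
  ∀ P : Finset ℕ, P ⊆ Icc (t + 1) (t + y) → (P.card : ℝ) * om y z ≤ (E : ℝ) ^ 2 →
    ∑ n ∈ NI u v Q b, WB m q (E / 16) z y P n ^ 4 ≤ Real.exp ((E : ℝ) ^ 2 / 2) * XI u v Q

/-- PACKET KC (for most `n` there is a set `P t` at which all primes are avoided; may assume
`TU.StmtS1`, `TU.StmtGT`, `TU.StmtTL`, S3, W4).  As `Pool/Agent/Helper73/GM/KB.lean` (its lemmas may be
imported); in `class_bound` the bound for single integers is replaced by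
`∑_n W_j^4 ≤ exp(E²/2) X ≤ exp(E²/2) X D_j²`. -/
def StmtKC : Prop := ∃ c : ℝ, 0 < c ∧ ∀ ε : ℝ, 0 < ε → ∃ E0 : ℕ, ∀ E z x y : ℕ, E0 ≤ E →
  Su E z x y → ∀ u v Q b : ℕ, In x u v Q b → ∀ (J : Finset ℕ) (P : ℕ → Finset ℕ),
  Real.exp ((E : ℝ) ^ 2) ≤ J.card → (∀ t ∈ J, P t ⊆ Icc 1 y) →
  (∀ t ∈ J, ∀ t' ∈ J, t ≠ t' → Disjoint (P t) (P t')) →
  (∀ t ∈ J, ((P t).card : ℝ) * om y z ≤ c * (E * Real.log E)) →
  (((NI u v Q b).filter (fun n => z ^ (E / 16) ≤ n ∧ ∀ t ∈ J, ∃ h ∈ P t, (n + h).Prime)).card : ℝ)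
    ≤ ε * XI u v Q

/-- PACKET KG (the same for the parameters of `GM`; may assume `GM.StmtS1`, `GM.StmtGT`, `GM.StmtS3`,
`GM.StmtTL`, V4).  As `Pool/Agent/Helper73/GM/KB.lean`, for a general interval. -/
def StmtKG : Prop := ∃ c : ℝ, 0 < c ∧ ∀ ε : ℝ, 0 < ε → ∃ E0 : ℕ, ∀ E z x y : ℕ, E0 ≤ E →
  Sr E z x y → ∀ u v Q b : ℕ, In x u v Q b → ∀ (J : Finset ℕ) (P : ℕ → Finset ℕ),
  Real.exp ((E : ℝ) ^ 2) ≤ J.card → (∀ t ∈ J, t + y ≤ z) →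
  (∀ t ∈ J, ∀ t' ∈ J, t < t' → t + y ≤ t') → (∀ t ∈ J, P t ⊆ Icc (t + 1) (t + y)) →
  (∀ t ∈ J, ((P t).card : ℝ) * om y z ≤ c * (E * Real.log E)) →
  (((NI u v Q b).filter (fun n => z ^ (E / 16) ≤ n ∧ ∀ t ∈ J, ∃ h ∈ P t, (n + h).Prime)).card : ℝ)
    ≤ ε * XI u v Q

/-! ## The conclusion (helper88) -/

/-- almost all integers of the interval `(u, u + x]` are close to a long interval without primes -/
def StmtAS : Prop := ∃ c C : ℝ, 0 < c ∧ 0 < C ∧ ∀ ε : ℝ, 0 < ε → ∃ (lam0 : ℝ) (x0 : ℕ), ∀ x : ℕ,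
  x0 ≤ x → ∀ lam : ℝ, lam0 ≤ lam → lam ≤ c * Real.log (Real.log x) → ∀ u : ℕ,
  (((Ioc u (u + x)).filter (fun n => ∀ t : ℕ,
    (t : ℝ) ≤ Real.exp (Real.exp (C * lam)) * Real.log x →
    ∃ p, p.Prime ∧ n + t < p ∧ p ≤ n + t + ⌈lam * Real.log x⌉₊)).card : ℝ) ≤ ε * x

/-- THE MAIN THEOREM. -/
def StmtAU : Prop := ∃ c C : ℝ, 0 < c ∧ ∀ ε : ℝ, 0 < ε → ∃ A H : ℝ, ∀ h : ℝ, H ≤ h → ∀ u : ℝ,
  0 ≤ u → ∀ L : ℝ, 0 ≤ L → L ≤ c * Real.log (Real.log h) →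
  ({m : ℕ | u < m ∧ (m : ℝ) ≤ u + h ∧ ¬ ∃ n : ℕ, m < Nat.nth Nat.Prime (n + 1) ∧
    (Nat.nth Nat.Prime n : ℝ) ≤ m + Real.exp (A * Real.exp (C * L)) * Real.log h ∧
    L * Real.log h ≤ (Nat.nth Nat.Prime (n + 1) : ℝ) - Nat.nth Nat.Prime n - 1}.ncard : ℝ)
    ≤ ε * h

end Pool.Agent.Helper88.TA
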