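import Pool.Agent.Helper88.TA.MainA
import Pool.Agent.Helper91.TU.GT

/-! # TA: the main theorem -/

set_option autoImplicit false

namespace Pool.Agent.Helper88.TA

open Pool.Agent.Helper88

theorem tGT : TU.StmtGT := Pool.Agent.Helper91.TU.gt TU.mTG

/-- almost all integers of every interval are close to a large gap between primes -/
theorem main : StmtAU := mAU tGT

end Pool.Agent.Helper88.TA
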