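import Pool.Agent.Helper88.TA.Fin
import Pool.Agent.Helper88.TU.MainA
import Pool.Agent.Helper88.GM.Main
import Pool.Agent.Helper13.GM.S3
import Pool.Agent.Helper89.TA.UB
import Pool.Agent.Helper90.TA.S3
import Pool.Agent.Helper55.TA.FM
import Pool.Agent.Helper5.TA.W4
import Pool.Agent.Helper49.TA.V4
import Pool.Agent.Helper70.TA.KC
import Pool.Agent.Helper11.TA.KG

/-! # TA: the assembly, everything but `TU.StmtGT` -/

set_option autoImplicit false

namespace Pool.Agent.Helper88.TA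

open Pool.Agent.Helper88

theorem mUB : StmtUB := Pool.Agent.Helper89.TA.ub Pool.Agent.Helper10.TU.bh Pool.Agent.Helper57.TU.bm

theorem gTL : GM.StmtTL := Pool.Agent.Helper8.GM.tl Pool.Agent.Helper6.RR.bo

theorem mKG : StmtKG :=
  Pool.Agent.Helper11.TA.kg (Pool.Agent.Helper32.GM.s1 GM.tsMain Pool.Agent.Helper31.GM.gw)
    (Pool.Agent.Helper6.GM.gt GM.tsMain Pool.Agent.Helper31.GM.gw)
    (Pool.Agent.Helper13.GM.s3 Pool.Agent.Helper31.GM.gl GM.tsMain Pool.Agent.Helper31.GM.gw)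
    gTL (Pool.Agent.Helper49.TA.v4 Pool.Agent.Helper55.TA.fm gTL Pool.Agent.Helper31.GM.gw)

/-- everything but `TU.StmtGT` -/
theorem mAU (hGT : TU.StmtGT) : StmtAU :=
  au (as_ mUB (Pool.Agent.Helper70.TA.kc TU.mS1 hGT TU.mTL
    (Pool.Agent.Helper90.TA.s3 TU.mTG) (Pool.Agent.Helper5.TA.w4 Pool.Agent.Helper55.TA.fm TU.mTL))
    mKG)

end Pool.Agent.Helper88.TA
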