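import Pool.Agent.Helper88.TA.Goals
import Pool.Agent.Helper87.CG.F1a
import Pool.Agent.Helper37.PP.HM
import Pool.Agent.Helper88.TU.Prep

/-! # TA: windows and classes -/

set_option autoImplicit false

open Finset Filter Topology

open scoped Classical

namespace Pool.Agent.Helper88.TA

open Pool.Agent.Helper88.PP (pr Rg om Sf SS uu vv ee LA VV QQ cost dd)
open Pool.Agent.Helper88.GM (NI XI In Sr)

/-- the points of the window number `t` which are prime to `Q` in the class `b` -/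
noncomputable def Pt (Q H b t : ℕ) : Finset ℕ :=
  (Ioc (t * H) (t * H + H)).filter (fun h => Nat.Coprime (b + h) Q)

/-- a prime `n + j` is prime to `Q` -/
theorem cop {x n b N j : ℕ} (hN : Real.log x / 20 ≤ (N : ℝ)) (hn : N ≤ n)
    (hb : n % QQ x = b) (hj : 1 ≤ j) (hp : (n + j).Prime) : Nat.Coprime (b + j) (QQ x) := by
  by_contra hc
  obtain ⟨p, hp1, hp2, hp3⟩ := Nat.Prime.not_coprime_iff_dvd.1 hc
  have hple : p ≤ ⌊Real.log x / 20⌋₊ := by
    unfold QQ at hp3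
    exact hp1.dvd_primorial_iff.1 hp3
  have hpx : p ≤ N := by
    refine hple.trans ?_
    exact Nat.floor_le_of_le hN
  have hmod : n ≡ b [MOD p] := by
    have h1 : n ≡ b [MOD QQ x] := by
      show n % QQ x = b % QQ x
      rw [← hb, Nat.mod_mod]
    exact h1.of_dvd hp3
  have hdvd : p ∣ n + j := by
    have h2 : n + j ≡ b + j [MOD p] := Nat.ModEq.add_right j hmod
    exact (h2.dvd_iff dvd_rfl).2 hp2
  rcases (Nat.dvd_prime hp).1 hdvd with h | h
  · exact hp1.one_lt.ne' h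
  · omega

/-- from the classes to the interval -/
theorem win {x u N H T : ℕ} {ε : ℝ} (hε : 0 ≤ ε) (hN : Real.log x / 20 ≤ (N : ℝ))
    (h : ∀ b < QQ x, (((NI u (u + x) (QQ x) b).filter (fun n => N ≤ n ∧
      ∀ t < T, ∃ h ∈ Pt (QQ x) H b t, (n + h).Prime)).card : ℝ) ≤ ε * XI u (u + x) (QQ x)) :
    (((Ioc u (u + x)).filter (fun n => ∀ t < T, ∃ p, p.Prime ∧ n + t * H < p ∧
      p ≤ n + t * H + H)).card : ℝ) ≤ ε * x + N := by
  have hQ : 0 < QQ x := primorial_pos _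
  have hQr : (0 : ℝ) < QQ x := by exact_mod_cast hQ
  have h1 : (Ioc u (u + x)).filter (fun n => ∀ t < T, ∃ p, p.Prime ∧ n + t * H < p ∧
      p ≤ n + t * H + H) ⊆ range N ∪ (range (QQ x)).biUnion (fun b =>
        (NI u (u + x) (QQ x) b).filter (fun n => N ≤ n ∧
          ∀ t < T, ∃ h ∈ Pt (QQ x) H b t, (n + h).Prime)) := by
    intro n hn
    rw [mem_filter, mem_Ioc] at hn
    obtain ⟨hn1, hn2⟩ := hn
    rcases Nat.lt_or_ge n N with h2 | h2
    · exact mem_union_left _ (mem_range.2 h2)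
    · refine mem_union_right _ (mem_biUnion.2 ⟨n % QQ x, mem_range.2 (Nat.mod_lt _ hQ), ?_⟩)
      refine mem_filter.2 ⟨mem_filter.2 ⟨mem_Ioc.2 hn1, rfl⟩, h2, fun t ht => ?_⟩
      obtain ⟨p, hp1, hp2, hp3⟩ := hn2 t ht
      refine ⟨p - n, ?_, ?_⟩
      · refine mem_filter.2 ⟨mem_Ioc.2 ⟨by omega, by omega⟩, ?_⟩
        refine cop hN h2 rfl (by omega) ?_
        rw [Nat.add_sub_cancel' (by omega)]
        exact hp1
      · rw [Nat.add_sub_cancel' (by omega)]
        exact hp1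
  have h2 := (card_le_card h1).trans (card_union_le _ _)
  have h3 := h2.trans (Nat.add_le_add_left card_biUnion_le _)
  have h4 : (((Ioc u (u + x)).filter (fun n => ∀ t < T, ∃ p, p.Prime ∧ n + t * H < p ∧
      p ≤ n + t * H + H)).card : ℝ) ≤ N + ∑ b ∈ range (QQ x),
        (((NI u (u + x) (QQ x) b).filter (fun n => N ≤ n ∧
          ∀ t < T, ∃ h ∈ Pt (QQ x) H b t, (n + h).Prime)).card : ℝ) := by
    rw [card_range] at h3
    exact_mod_cast h3
  refine h4.trans ?_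
  have h5 : ∑ b ∈ range (QQ x),
        (((NI u (u + x) (QQ x) b).filter (fun n => N ≤ n ∧
          ∀ t < T, ∃ h ∈ Pt (QQ x) H b t, (n + h).Prime)).card : ℝ) ≤
      ∑ _b ∈ range (QQ x), ε * XI u (u + x) (QQ x) :=
    sum_le_sum fun b hb => h b (mem_range.1 hb)
  rw [sum_const, card_range, nsmul_eq_mul] at h5
  have h6 : (QQ x : ℝ) * (ε * XI u (u + x) (QQ x)) = ε * x := by
    unfold XI
    rw [Nat.add_sub_cancel_left]
    field_simp
  rw [h6] at h5
  linarith

/-- the number of the points of a window -/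
theorem pts {C : ℝ} (hUB : ∀ w H M : ℕ, 2 ≤ w → w ≤ H →
    (((Ioc M (M + H)).filter (fun n => ∀ p : ℕ, p.Prime → p ≤ w → ¬ p ∣ n)).card : ℝ)
      ≤ C * (H / Real.log w)) {x H : ℕ} (h1 : 2 ≤ ⌊Real.log x / 20⌋₊)
    (h2 : ⌊Real.log x / 20⌋₊ ≤ H) (b t : ℕ) :
    ((Pt (QQ x) H b t).card : ℝ) ≤ C * (H / Real.log (⌊Real.log x / 20⌋₊ : ℕ)) := by
  refine le_trans ?_ (hUB ⌊Real.log x / 20⌋₊ H (b + t * H) h1 h2)
  refine Nat.cast_le.2 ?_
  refine card_le_card_of_injOn (fun h => b + h) ?_ ?_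
  · intro h hh
    unfold Pt at hh
    rw [mem_coe, mem_filter, mem_Ioc] at hh
    rw [mem_coe, mem_filter, mem_Ioc]
    refine ⟨⟨by dsimp; omega, by dsimp; omega⟩, fun p hp hpw hpd => ?_⟩
    have h3 : p ∣ QQ x := hp.dvd_primorial_iff.2 hpw
    have h4 := Nat.dvd_gcd hpd h3
    rw [Nat.Coprime] at hh
    rw [hh.2] at h4
    exact hp.one_lt.ne' (Nat.dvd_one.1 h4)
  · intro a _ a' _ h3
    simpa using h3

end Pool.Agent.Helper88.TA
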